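import Pool.Agent.Run7.h238.J.Stm
import Pool.Agent.N509.GB.FE2

/-!
# J-FEW: few sets have few large primes in a set of positive logarithmic density

After `Pool/Agent/N509/GB/FE2.lean` (helper509, after helper362) and `Pool/Agent/R413/SM/S3.lean`.
-/

set_option autoImplicit false

open scoped Classical

namespace Pool.Agent.Run7.h89.J

open Finset Filter
open Pool.Agent.Y703.CX (sm la eL zz S_SIE)
open Pool.Agent.N916.GB (Po SA S_ME8)
open Pool.Agent.Y495.CX.Few (PN euler le_of_mem_prod mert eL_tendsto log_small zz_ge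
  loglog_zz rpow_eq)
open Pool.Agent.R413.SQ.FEW (moment)
open Pool.Agent.N509.GB.FE2 (SA_mem)
open Pool.Agent.Run7.h238.J (Pos S_JFEW)

/-- sets with many small primes -/
lemma fpart1 {c : ℝ} (hc : 0 < c) : ∃ C : ℝ, 0 ≤ C ∧ ∀ᶠ X : ℕ in atTop,
    (((SA X).filter fun S => c * eL X < ((sm (zz X) S).card : ℝ)).card : ℝ) ≤
      C * X * Real.exp (-(4 / 5) * eL X) := by
  obtain ⟨C, hC0, hC⟩ := mert
  set κ : ℝ := Real.exp (1 / c) with hκ
  have κ0 : 0 < κ := Real.exp_pos _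
  refine ⟨Real.exp (κ * C), (Real.exp_pos _).le, ?_⟩
  filter_upwards [eL_tendsto.eventually (log_small (3 * κ) (1 / 5) (by norm_num)),
    eL_tendsto.eventually (eventually_ge_atTop 2)] with X h1 h2
  have h3 := moment X (zz X) (SA X)
    (fun S hS => ⟨fun p hp => ((SA_mem hS).1 p hp).1, (SA_mem hS).2⟩) κ κ0.le
  have h4 := hC (zz X) (zz_ge h2)
  have h5 := loglog_zz h2
  have h6 : (((SA X).filter fun S => c * eL X < ((sm (zz X) S).card : ℝ)).card : ℝ) *
      Real.exp (eL X) ≤ ∑ S ∈ SA X, κ ^ (sm (zz X) S).card := by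
    rw [← nsmul_eq_mul, ← sum_const]
    refine le_trans ?_ (sum_le_sum_of_subset_of_nonneg
      (filter_subset (fun S => c * eL X < ((sm (zz X) S).card : ℝ)) (SA X))
      fun S _ _ => by positivity)
    refine sum_le_sum fun S hS => ?_
    rw [mem_filter] at hS
    rw [hκ, ← Real.exp_nat_mul]
    apply Real.exp_le_exp.2
    rw [mul_one_div, le_div_iff₀ hc, mul_comm]
    exact hS.2.le
  have h7 := h6.trans h3
  have h8 : κ * ∑ p ∈ PN (zz X), (1 : ℝ) / p ≤ κ * C + 1 / 5 * eL X := by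
    have : κ * ∑ p ∈ PN (zz X), (1 : ℝ) / p ≤ κ * (3 * Real.log (eL X) + C) :=
      mul_le_mul_of_nonneg_left (by linarith) κ0.le
    nlinarith
  have h9 : (X : ℝ) * Real.exp (κ * ∑ p ∈ PN (zz X), (1 : ℝ) / p) ≤
      X * (Real.exp (κ * C) * Real.exp (1 / 5 * eL X)) := by
    rw [← Real.exp_add]
    exact mul_le_mul_of_nonneg_left (Real.exp_le_exp.2 h8) (Nat.cast_nonneg _)
  have h10 := h7.trans h9
  have h11 : (Real.exp (κ * C) * X * Real.exp (-(4 / 5) * eL X)) * Real.exp (eL X) =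
      X * (Real.exp (κ * C) * Real.exp (1 / 5 * eL X)) := by
    have : Real.exp (1 / 5 * eL X) = Real.exp (-(4 / 5) * eL X) * Real.exp (eL X) := by
      rw [← Real.exp_add]
      congr 1
      ring
    rw [this]
    ring
  rw [← h11] at h10
  exact le_of_mul_le_mul_right h10 (Real.exp_pos _)

variable (d : ℕ → ZMod 2)

/-- the sets with at most `B` large primes with `d p ≠ 0` -/
noncomputable def LD (X B : ℕ) : Finset (Finset ℕ) :=
  (range (X + 1)).powerset.filter fun S => (∀ p ∈ S, Po p) ∧ ∏ p ∈ S, p ≤ X ∧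
    ((la (zz X) S).filter fun p => d p ≠ 0).card ≤ B

lemma mem_LD {X B : ℕ} {S : Finset ℕ} : S ∈ LD d X B ↔ S ⊆ range (X + 1) ∧ (∀ p ∈ S, Po p) ∧
    ∏ p ∈ S, p ≤ X ∧ ((la (zz X) S).filter fun p => d p ≠ 0).card ≤ B := by
  unfold LD
  rw [mem_filter, mem_powerset]

lemma LD_sub {X B : ℕ} {S T : Finset ℕ} (hS : S ∈ LD d X B) (h : T ⊆ S) : T ∈ LD d X B := by
  rw [mem_LD] at hS ⊢
  obtain ⟨a0, a1, a2, a3⟩ := hS
  refine ⟨h.trans a0, fun p hp => a1 p (h hp), ?_, ?_⟩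
  · refine le_trans ?_ a2
    exact prod_le_prod_of_subset_of_one_le' h fun p hp _ => (a1 p hp).1.one_lt.le
  · refine (card_le_card (filter_subset_filter _ ?_)).trans a3
    unfold la
    exact filter_subset_filter _ h

/-- the weight -/
noncomputable def wd (z p : ℕ) : ℝ := if ¬ p ≤ z ∧ d p ≠ 0 then Real.exp (-1) else 1

lemma wd_nonneg (z p : ℕ) : 0 ≤ wd d z p := by
  unfold wd
  split_ifs
  · exact (Real.exp_pos _).le
  · exact zero_le_one

lemma one_le_wd {X B : ℕ} {S : Finset ℕ} (hS : S ∈ LD d X B) :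
    1 ≤ Real.exp B * ∏ p ∈ S, wd d (zz X) p := by
  rw [mem_LD] at hS
  unfold wd
  rw [← prod_filter, prod_const, ← Real.exp_nat_mul, ← Real.exp_add]
  have h1 : (S.filter fun p => ¬ p ≤ zz X ∧ d p ≠ 0).card ≤ B := by
    refine (card_le_card ?_).trans hS.2.2.2
    intro p hp
    rw [mem_filter] at hp
    unfold la
    rw [mem_filter, mem_filter]
    exact ⟨⟨hp.1, hp.2.1⟩, hp.2.2⟩
  have h2 : ((S.filter fun p => ¬ p ≤ zz X ∧ d p ≠ 0).card : ℝ) ≤ B := by exact_mod_cast h1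
  apply Real.one_le_exp
  linarith

/-- the logarithmic sum over the primes with `d p ≠ 0` -/
noncomputable def sd (X : ℕ) : ℝ :=
  ∑ p ∈ (range (X + 1)).filter (fun p => Po p ∧ d p ≠ 0), (1 : ℝ) / p

/-- the logarithmic density of the family -/
lemma LD_sum (X B : ℕ) : ∑ S ∈ LD d X B, (1 : ℝ) / ((∏ p ∈ S, p : ℕ) : ℝ) ≤
    Real.exp (B + (∑ p ∈ PN (zz X), (1 : ℝ) / p +
      (∑ p ∈ PN X, (1 : ℝ) / p - 1 / 2 * sd d X))) := by
  have h1 : ∀ S ∈ LD d X B, (1 : ℝ) / ((∏ p ∈ S, p : ℕ) : ℝ) ≤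
      Real.exp B * ∏ p ∈ S, (wd d (zz X) p * (1 / p)) := by
    intro S hS
    have h2 := one_le_wd d hS
    have h3 : (0 : ℝ) ≤ ∏ p ∈ S, (1 : ℝ) / p := prod_nonneg fun p _ => by positivity
    have h4 : (1 : ℝ) / ((∏ p ∈ S, p : ℕ) : ℝ) = ∏ p ∈ S, (1 : ℝ) / p := by
      rw [prod_div_distrib, prod_const_one]
      push_cast
      rfl
    rw [h4, prod_mul_distrib]
    calc ∏ p ∈ S, (1 : ℝ) / p = 1 * ∏ p ∈ S, (1 : ℝ) / p := (one_mul _).symm
      _ ≤ (Real.exp B * ∏ p ∈ S, wd d (zz X) p) * ∏ p ∈ S, (1 : ℝ) / p :=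
          mul_le_mul_of_nonneg_right h2 h3
      _ = _ := by ring
  refine (sum_le_sum h1).trans ?_
  rw [← mul_sum, Real.exp_add]
  apply mul_le_mul_of_nonneg_left _ (Real.exp_pos _).le
  have hnn : ∀ p : ℕ, 0 ≤ wd d (zz X) p * (1 / (p : ℝ)) := fun p =>
    mul_nonneg (wd_nonneg d _ p) (by positivity)
  have h5 : ∑ S ∈ LD d X B, ∏ p ∈ S, (wd d (zz X) p * (1 / (p : ℝ))) ≤
      ∑ S ∈ ((PN X).filter fun p => p ≠ 2).powerset, ∏ p ∈ S, (wd d (zz X) p * (1 / (p : ℝ))) := by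
    refine sum_le_sum_of_subset_of_nonneg ?_ fun S _ _ => prod_nonneg fun p _ => hnn p
    intro S hS
    rw [mem_LD] at hS
    rw [mem_powerset]
    intro p hp
    have h6 := hS.2.1 p hp
    rw [mem_filter, mem_filter, mem_Icc]
    exact ⟨⟨⟨h6.1.one_lt.le, le_of_mem_prod (fun p hp => (hS.2.1 p hp).1) hS.2.2.1 hp⟩, h6.1⟩,
      h6.2⟩
  refine h5.trans ((euler _ _ fun p _ => hnn p).trans ?_)
  apply Real.exp_le_exp.2
  have hexp : Real.exp (-1) ≤ 1 / 2 := by
    rw [Real.exp_neg]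
    have : (2 : ℝ) ≤ Real.exp 1 := by
      have := Real.add_one_le_exp (1 : ℝ)
      linarith
    rw [one_div]
    exact inv_anti₀ (by norm_num) this
  have hmono : ∀ p : ℕ, 0 ≤ (if p ≤ zz X then (1 : ℝ) / p else 0) + (1 / (p : ℝ) -
      1 / 2 * (if Po p ∧ d p ≠ 0 then 1 / (p : ℝ) else 0)) := by
    intro p
    have hp0 : (0 : ℝ) ≤ 1 / p := by positivity
    split_ifs <;> linarith
  have h6 : ∀ p ∈ (PN X).filter fun p => p ≠ 2, wd d (zz X) p * (1 / (p : ℝ)) ≤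
      (if p ≤ zz X then (1 : ℝ) / p else 0) + (1 / (p : ℝ) -
        1 / 2 * (if Po p ∧ d p ≠ 0 then 1 / (p : ℝ) else 0)) := by
    intro p hp
    rw [mem_filter, mem_filter] at hp
    have hp0 : (0 : ℝ) ≤ 1 / p := by positivity
    have hpo : Po p := ⟨hp.1.2, hp.2⟩
    unfold wd
    by_cases hpz : p ≤ zz X
    · rw [if_neg (fun h => h.1 hpz), if_pos hpz]
      have e2 : 1 / 2 * (if Po p ∧ d p ≠ 0 then 1 / (p : ℝ) else 0) ≤ 1 / p := by
        split_ifs <;> linarith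
      linarith
    · rw [if_neg hpz]
      by_cases hd : d p ≠ 0
      · rw [if_pos ⟨hpz, hd⟩, if_pos ⟨hpo, hd⟩]
        have := mul_le_mul_of_nonneg_right hexp hp0
        linarith
      · rw [if_neg (fun h => hd h.2), if_neg (fun h => hd h.2)]
        linarith
  refine (sum_le_sum h6).trans ?_
  refine (sum_le_sum_of_subset_of_nonneg (filter_subset _ _) fun p _ _ => hmono p).trans ?_
  rw [sum_add_distrib, sum_sub_distrib, ← mul_sum, ← sum_filter, ← sum_filter]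
  have e3 : ∑ p ∈ (PN X).filter (fun p => p ≤ zz X), (1 : ℝ) / p ≤ ∑ p ∈ PN (zz X), (1 : ℝ) / p := by
    refine sum_le_sum_of_subset_of_nonneg ?_ fun p _ _ => by positivity
    intro p hp
    rw [mem_filter, mem_filter, mem_Icc] at hp
    rw [mem_filter, mem_Icc]
    exact ⟨⟨hp.1.1.1, hp.2⟩, hp.1.2⟩
  have e4 : sd d X ≤ ∑ p ∈ (PN X).filter (fun p => Po p ∧ d p ≠ 0), (1 : ℝ) / p := by
    unfold sd
    refine sum_le_sum_of_subset_of_nonneg ?_ fun p _ _ => by positivity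
    intro p hp
    rw [mem_filter, mem_range] at hp
    rw [mem_filter, mem_filter, mem_Icc]
    exact ⟨⟨⟨hp.2.1.1.one_lt.le, by omega⟩, hp.2.1.1⟩, hp.2⟩
  linarith

/-- sets with few large primes with `d p ≠ 0` -/
lemma fpart2 (hs : S_SIE) (β : ℝ) (C₁ : ℝ) (hβ : 0 < β)
    (hd : ∀ y : ℕ, 3 ≤ y → β * Real.log (Real.log y) - C₁ ≤ sd d y) :
    ∃ C : ℝ, 0 ≤ C ∧ ∀ᶠ X : ℕ in atTop,
    ((LD d X ⌊β / 8 * eL X⌋₊).card : ℝ) ≤ C * X * Real.exp (-(β / 4) * eL X) := by
  obtain ⟨C, hC0, hC⟩ := mert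
  obtain ⟨C', hC'1, hC'⟩ := hs
  refine ⟨C' * Real.exp (C + C + 1 / 2 * C₁), by positivity, ?_⟩
  filter_upwards [eL_tendsto.eventually (log_small 3 (β / 8) (by positivity)),
    eL_tendsto.eventually (eventually_ge_atTop 2), eventually_ge_atTop 3] with X h1 h2 h3
  set l := eL X with hl
  have h4 := hC (zz X) (zz_ge h2)
  have h5 := loglog_zz h2
  have h6 := hC X h3
  have h6' := hd X h3
  rw [← hl] at h5
  change _ ≤ l + C at h6
  change β * l - C₁ ≤ _ at h6'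
  have h7 := hC' X (LD d X ⌊β / 8 * l⌋₊) (by omega)
    (fun S hS => ⟨fun p hp => (((mem_LD d).1 hS).2.1 p hp).1, ((mem_LD d).1 hS).2.2.1⟩)
    (fun S hS T hT => LD_sub d hS hT)
  have h8 := LD_sum d X ⌊β / 8 * l⌋₊
  have hfl : ((⌊β / 8 * l⌋₊ : ℕ) : ℝ) ≤ β / 8 * l := Nat.floor_le (by positivity)
  have hlX : Real.log X = Real.exp l := by
    have := rpow_eq (X := X) h2 1
    rwa [Real.rpow_one, one_mul] at this
  rw [hlX] at h7
  have h12 : Real.exp (((⌊β / 8 * l⌋₊ : ℕ) : ℝ) + (∑ p ∈ PN (zz X), (1 : ℝ) / p +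
      (∑ p ∈ PN X, (1 : ℝ) / p - 1 / 2 * sd d X))) ≤
      Real.exp (C + C + 1 / 2 * C₁) * Real.exp ((1 - β / 4) * l) := by
    rw [← Real.exp_add]
    apply Real.exp_le_exp.2
    linarith
  have h13 : ((LD d X ⌊β / 8 * l⌋₊).card : ℝ) * Real.exp l ≤
      C' * X * (Real.exp (C + C + 1 / 2 * C₁) * Real.exp ((1 - β / 4) * l)) := by
    refine h7.trans ?_
    exact mul_le_mul_of_nonneg_left (h8.trans h12) (by positivity)
  have h14 : (C' * Real.exp (C + C + 1 / 2 * C₁) * X * Real.exp (-(β / 4) * l)) * Real.exp l =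
      C' * X * (Real.exp (C + C + 1 / 2 * C₁) * Real.exp ((1 - β / 4) * l)) := by
    have : Real.exp ((1 - β / 4) * l) = Real.exp (-(β / 4) * l) * Real.exp l := by
      rw [← Real.exp_add]
      congr 1
      ring
    rw [this]
    ring
  rw [← h14] at h13
  exact le_of_mul_le_mul_right h13 (Real.exp_pos _)

lemma small_exp {a : ℝ} (ha : 0 < a) (C : ℝ) {ε : ℝ} (hε : 0 < ε) :
    ∀ᶠ X : ℕ in atTop, C * Real.exp (-a * eL X) ≤ ε := by
  have h1 : Tendsto (fun X : ℕ => C * Real.exp (-a * eL X)) atTop (nhds (C * 0)) := by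
    refine Tendsto.const_mul C (Real.tendsto_exp_atBot.comp ?_)
    exact (tendsto_id.const_mul_atTop_of_neg (by linarith : -a < 0)).comp eL_tendsto
  rw [mul_zero] at h1
  exact (h1.eventually (gt_mem_nhds hε)).mono fun X h => h.le

/-- **J-FEW** -/
theorem t_JFEW : S_JFEW := by
  intro hs hm d hd A R ε hε
  obtain ⟨β, C₀, hβ, h0⟩ := hd
  set c : ℝ := β / (16 * (A + 1)) with hc
  have hc0 : 0 < c := by positivity
  obtain ⟨C₁, hC₁, h1⟩ := fpart1 hc0
  obtain ⟨C₂, hC₂, h2⟩ := fpart2 d hs β C₀ hβ h0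
  have h3 := small_exp (a := 4 / 5) (by norm_num) C₁ (half_pos hε)
  have h4 := small_exp (a := β / 4) (by positivity) C₂ (half_pos hε)
  have h5 := eL_tendsto.eventually (eventually_ge_atTop (16 * (R : ℝ) / β))
  have h6 := eL_tendsto.eventually (eventually_ge_atTop (2 : ℝ))
  obtain ⟨X₀, hX₀⟩ := eventually_atTop.1 ((h1.and h2).and ((h3.and h4).and (h5.and h6)))
  refine ⟨X₀, fun X hX => ?_⟩
  obtain ⟨⟨k1, k2⟩, ⟨k3, k4⟩, k5, k6⟩ := hX₀ X hX
  rw [div_le_iff₀ hβ] at k5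
  have h11 : ((SA X).filter fun S => ((la (zz X) S).filter fun p => d p ≠ 0).card <
      A * (sm (zz X) S).card + R) ⊆
      ((SA X).filter fun S => c * eL X < ((sm (zz X) S).card : ℝ)) ∪
        LD d X ⌊β / 8 * eL X⌋₊ := by
    intro S hS
    rw [mem_filter] at hS
    rw [mem_union, mem_filter]
    by_cases hcc : c * eL X < ((sm (zz X) S).card : ℝ)
    · exact Or.inl ⟨hS.1, hcc⟩
    · right
      rw [not_lt] at hcc
      obtain ⟨a1, a2⟩ := SA_mem hS.1
      rw [mem_LD]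
      refine ⟨?_, a1, a2, ?_⟩
      · intro p hp
        rw [mem_range]
        have := le_of_mem_prod (fun p hp => (a1 p hp).1) a2 hp
        omega
      · apply Nat.le_floor
        have h12 : ((((la (zz X) S).filter fun p => d p ≠ 0).card : ℕ) : ℝ) ≤
            A * ((sm (zz X) S).card : ℝ) + R := by exact_mod_cast hS.2.le
        have h13 : (A : ℝ) * ((sm (zz X) S).card : ℝ) ≤ A * (c * eL X) :=
          mul_le_mul_of_nonneg_left hcc (Nat.cast_nonneg _)
        have h14 : (A : ℝ) * c ≤ β / 16 := by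
          rw [hc, mul_div_assoc', div_le_div_iff₀ (by positivity) (by norm_num)]
          nlinarith
        have h15 : (A : ℝ) * (c * eL X) ≤ β / 16 * eL X := by
          rw [← mul_assoc]
          exact mul_le_mul_of_nonneg_right h14 (by linarith)
        linarith
  have h12 : (((SA X).filter fun S => ((la (zz X) S).filter fun p => d p ≠ 0).card <
      A * (sm (zz X) S).card + R).card : ℝ) ≤
      (((SA X).filter fun S => c * eL X < ((sm (zz X) S).card : ℝ)).card : ℝ) +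
      ((LD d X ⌊β / 8 * eL X⌋₊).card : ℝ) := by
    exact_mod_cast (card_le_card h11).trans (card_union_le _ _)
  have hX0 : (0 : ℝ) ≤ X := Nat.cast_nonneg _
  refine h12.trans ((add_le_add k1 k2).trans ?_)
  calc C₁ * X * Real.exp (-(4 / 5) * eL X) + C₂ * X * Real.exp (-(β / 4) * eL X) =
        (C₁ * Real.exp (-(4 / 5) * eL X) + C₂ * Real.exp (-(β / 4) * eL X)) * X := by ring
    _ ≤ (ε / 2 + ε / 2) * X := mul_le_mul_of_nonneg_right (add_le_add k3 k4) hX0
    _ = ε * X := by ring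

end Pool.Agent.Run7.h89.J
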