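import Pool.Agent.Run7.h238.J.Stm
import Pool.Agent.Y405.CQ.MER

/-!
# J-POS: the labels have positive logarithmic density
-/

set_option autoImplicit false

open scoped Classical

namespace Pool.Agent.Run7.h89.J

open Finset Filter
open Pool.Agent.Y703.CQ (nr)
open Pool.Agent.N973.ND (uu)
open Pool.Agent.N916.GB (Po)
open Pool.Agent.Run7.h238.J (Pos S_JPOS)

/-- a function which does not vanish on the primes in a residue class -/
lemma pos_of {m a : ℕ} (hm : 2 ∣ m) (hm0 : 0 < m) (ha : a < m) (hc : a.Coprime m)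
    {d : ℕ → ZMod 2} (h : ∀ p : ℕ, p.Prime → p % m = a → d p ≠ 0) : Pos d := by
  obtain ⟨C, -, hC⟩ := Pool.Agent.Y405.CQ.mertens_ap m hm0 a ha hc
  have hφ : (0 : ℝ) < (m.totient : ℝ) := by exact_mod_cast Nat.totient_pos.2 hm0
  refine ⟨1 / (m.totient : ℝ), C, by positivity, fun y hy => ?_⟩
  have h1 := (abs_le.1 (hC y hy)).1
  have h2 : ∑ p ∈ (Icc 1 y).filter (fun p => p.Prime ∧ p % m = a), (1 : ℝ) / p ≤
      ∑ p ∈ (range (y + 1)).filter (fun p => Po p ∧ d p ≠ 0), (1 : ℝ) / p := by
    refine sum_le_sum_of_subset_of_nonneg ?_ fun p _ _ => by positivity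
    intro p hp
    rw [mem_filter, mem_Icc] at hp
    obtain ⟨⟨-, h3⟩, h4, h5⟩ := hp
    rw [mem_filter, mem_range]
    refine ⟨by omega, ⟨h4, ?_⟩, h p h4 h5⟩
    rintro rfl
    have h6 : 2 ∣ a := by
      rw [← h5]
      exact (Nat.dvd_mod_iff hm).2 dvd_rfl
    have h7 : 2 ∣ Nat.gcd a m := Nat.dvd_gcd h6 hm
    rw [hc] at h7
    omega
  have h8 := h1.trans (sub_le_sub_right h2 _)
  linarith

/-- a residue class modulo `4 ∏ v` on which the sum of the labels is one -/
lemma exists_class {U : Finset ℕ} (hU : U.Nonempty) (hP : ∀ p ∈ U, Po p) :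
    ∃ k : ℕ, k.Coprime (4 * ∏ v ∈ U, v) ∧ ∀ p : ℕ, p % (4 * ∏ v ∈ U, v) = k % (4 * ∏ v ∈ U, v) →
      ∑ v ∈ U, nr v p = 1 ∧ uu p = 0 := by
  obtain ⟨v₀, h0⟩ := hU
  have hp0 := hP v₀ h0
  have : Fact v₀.Prime := ⟨hp0.1⟩
  obtain ⟨g, hg⟩ : ∃ g : ZMod v₀, ¬ IsSquare g :=
    FiniteField.exists_nonsquare (by rw [ZMod.ringChar_zmod_n]; exact hp0.2)
  have h4U : 4 ∉ U := fun h => by
    have := (hP 4 h).1
    norm_num at this
  obtain ⟨k, hk⟩ := Nat.chineseRemainderOfFinset (fun i => if i = v₀ then g.val else 1)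
    (fun i => i) (insert 4 U) (by
      intro i hi
      rcases mem_insert.1 hi with rfl | hi
      · norm_num
      · exact (hP i hi).1.ne_zero) (by
      intro i hi j hj hij
      have hodd : ∀ v ∈ U, Nat.Coprime 4 v := by
        intro v hv
        have h2 : Nat.Coprime 2 v := by
          rw [Nat.coprime_primes Nat.prime_two (hP v hv).1]
          exact (hP v hv).2.symm
        exact Nat.Coprime.pow_left 2 h2
      show Nat.Coprime i j
      rcases mem_insert.1 (mem_coe.1 hi) with rfl | hi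
      · rcases mem_insert.1 (mem_coe.1 hj) with rfl | hj
        · exact absurd rfl hij
        · exact hodd j hj
      · rcases mem_insert.1 (mem_coe.1 hj) with rfl | hj
        · exact (hodd i hi).symm
        · exact (Nat.coprime_primes (hP i hi).1 (hP j hj).1).2 hij)
  have hk4 : k % 4 = 1 := by
    have h := hk 4 (mem_insert_self _ _)
    rw [if_neg (fun h => h4U (by rw [h]; exact h0))] at h
    exact h
  have hkv : ∀ v ∈ U, v ≠ v₀ → (k : ZMod v) = 1 := by
    intro v hv hne
    have h := hk v (mem_insert_of_mem hv)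
    rw [if_neg hne] at h
    have := (ZMod.natCast_eq_natCast_iff _ _ _).2 h
    rwa [Nat.cast_one] at this
  have hk0 : (k : ZMod v₀) = g := by
    have h := hk v₀ (mem_insert_of_mem h0)
    rw [if_pos rfl] at h
    have := (ZMod.natCast_eq_natCast_iff _ _ _).2 h
    rwa [ZMod.natCast_zmod_val] at this
  refine ⟨k, ?_, ?_⟩
  · refine Nat.Coprime.mul_right ?_ (Nat.Coprime.prod_right fun v hv => ?_)
    · have h2 : Nat.Coprime k 2 := by
        rw [Nat.coprime_two_right]
        exact Nat.odd_iff.2 (by omega)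
      exact Nat.Coprime.pow_right 2 h2
    · rw [Nat.coprime_comm, Nat.Prime.coprime_iff_not_dvd (hP v hv).1]
      intro hd
      have h1 := (ZMod.natCast_eq_zero_iff k v).2 hd
      by_cases hne : v = v₀
      · subst hne
        rw [hk0] at h1
        apply hg
        rw [h1]
        exact IsSquare.zero
      · rw [hkv v hv hne] at h1
        have : Fact v.Prime := ⟨(hP v hv).1⟩
        exact one_ne_zero h1
  · intro p hp
    have hmod : p ≡ k [MOD 4 * ∏ v ∈ U, v] := hp
    have hp4 : p % 4 = 1 := by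
      have h : p % 4 = k % 4 := hmod.of_dvd (Dvd.intro _ rfl)
      omega
    have hpv : ∀ v ∈ U, (p : ZMod v) = (k : ZMod v) := by
      intro v hv
      refine (ZMod.natCast_eq_natCast_iff _ _ _).2 (hmod.of_dvd ?_)
      exact Dvd.dvd.mul_left (Finset.dvd_prod_of_mem (fun v => v) hv) 4
    refine ⟨?_, ?_⟩
    · rw [sum_eq_single v₀]
      · unfold nr
        rw [if_neg]
        rw [hpv v₀ h0, hk0]
        exact hg
      · intro v hv hne
        unfold nr
        rw [if_pos]
        rw [hpv v hv, hkv v hv hne]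
        exact IsSquare.one
      · intro h
        exact absurd h0 h
    · unfold uu
      rw [if_neg (by omega)]

/-- **J-POS** -/
theorem t_JPOS : S_JPOS := by
  intro U hU hP
  obtain ⟨k, hk, h⟩ := exists_class hU hP
  set m : ℕ := 4 * ∏ v ∈ U, v with hm
  have hm0 : 0 < m := by
    rw [hm]
    exact Nat.mul_pos (by norm_num) (prod_pos fun v hv => (hP v hv).1.pos)
  have h2 : 2 ∣ m := by
    rw [hm]
    exact Dvd.dvd.mul_right (by norm_num) _
  have hc : (k % m).Coprime m := by
    rw [Nat.Coprime, ← Nat.gcd_rec, Nat.gcd_comm]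
    exact hk
  refine ⟨pos_of h2 hm0 (Nat.mod_lt _ hm0) hc fun p _ hpm => ?_,
    pos_of h2 hm0 (Nat.mod_lt _ hm0) hc fun p _ hpm => ?_,
    pos_of (m := 4) (a := 3) (by norm_num) (by norm_num) (by norm_num) (by norm_num)
      fun p _ hpm => ?_⟩
  · rw [(h p hpm).1]
    exact one_ne_zero
  · rw [(h p hpm).1, (h p hpm).2, add_zero]
    exact one_ne_zero
  · unfold uu
    rw [if_pos hpm]
    exact one_ne_zero

end Pool.Agent.Run7.h89.J
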